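import Mathlib

/-!
# MP_5ab447_lc: the manipulability of the random d-ary single elimination bracket

For all `3 ≤ k ≤ d` the number `α_{d,k}` is at least `227/420`.
-/

namespace Pool.Agent.Results.MP_5ab447_lc.BoundHolds

open Finset

/-- A tournament on a set `N` of teams: `beats x y` says that `x` beats `y`; of two distinct
teams exactly one beats the other. -/
structure Tournament (N : Type) where
  beats : N → N → Prop
  irrefl : ∀ x, ¬ beats x x
  total : ∀ x y, x ≠ y → (beats x y ↔ ¬ beats y x)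

/-- `x` is a Condorcet winner of the set `X`. -/
def IsCondorcet {N : Type} (T : Tournament N) (X : Set N) (x : N) : Prop :=
  x ∈ X ∧ ∀ y ∈ X, y ≠ x → T.beats x y

open Classical in
/-- The label of an inner node whose children have the labels `v 0, …, v (d-1)` and whose mark
is `m`: the Condorcet winner of the set of the children's labels if there is one, and the label
of the child number `m` otherwise. -/
noncomputable def play {N : Type} (T : Tournament N) {d : ℕ} (v : Fin d → N) (m : Fin d) : N :=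
  if h : ∃ x, IsCondorcet T (Set.range v) x then h.choose else v m

/-- The leaves of the complete `d`-ary tree of height `h`: for height `h + 1` a leaf is a pair
(child of the root, leaf of the subtree of this child). -/
def Leaf (d : ℕ) : ℕ → Type
  | 0 => Unit
  | h + 1 => Fin d × Leaf d h

/-- The assignments of marks to the inner nodes of the complete `d`-ary tree of height `h`: for
height `h + 1` a pair (mark of the root, assignments for the `d` subtrees of its children). -/
def Marks (d : ℕ) : ℕ → Type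
  | 0 => Unit
  | h + 1 => Fin d × (Fin d → Marks d h)

/-- The label of the root of the complete `d`-ary tree of height `h` whose leaves carry the teams
`σ` and whose inner nodes carry the marks `m`. -/
noncomputable def label {N : Type} (T : Tournament N) {d : ℕ} :
    (h : ℕ) → (Leaf d h → N) → Marks d h → N
  | 0, σ, _ => σ ()
  | h + 1, σ, m => play T (fun i => label T h (fun l => σ (i, l)) (m.2 i)) m.1

/-- The probability that `x` wins: the fraction of the pairs (bijection from the leaves to the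
teams, assignment of marks) for which the root gets the label `x`. -/
noncomputable def winProb {d h : ℕ} (T : Tournament (Fin (d ^ h))) (x : Fin (d ^ h)) : ℝ :=
  (Nat.card {p : (Leaf d h ≃ Fin (d ^ h)) × Marks d h // label T h p.1 p.2 = x} : ℝ) /
    (Nat.card ((Leaf d h ≃ Fin (d ^ h)) × Marks d h) : ℝ)

/-- The probability that a member of `S` wins. -/
noncomputable def r {d h : ℕ} (T : Tournament (Fin (d ^ h))) (S : Finset (Fin (d ^ h))) : ℝ :=
  ∑ x ∈ S, winProb T x

/-- `S`-adjacent tournaments. -/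
def Adjacent {N : Type} (S : Finset N) (T T' : Tournament N) : Prop :=
  ∀ x y, ¬ (x ∈ S ∧ y ∈ S) → (T.beats x y ↔ T'.beats x y)

/-- The rule R`d`SEB on `d ^ h` teams is `k`-SNM-`α`. -/
def SNM (d h k : ℕ) (α : ℝ) : Prop :=
  ∀ (T T' : Tournament (Fin (d ^ h))) (S : Finset (Fin (d ^ h))),
    S.card ≤ k → Adjacent S T T' → r T' S - r T S ≤ α

/-- The number `α_{d,k}`. -/
noncomputable def alpha (d k : ℕ) : ℝ := sInf {α : ℝ | ∀ h, 1 ≤ h → SNM d h k α}

/-! ### Instances -/

noncomputable instance instFintypeLeaf (d : ℕ) : (h : ℕ) → Fintype (Leaf d h)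
  | 0 => inferInstanceAs (Fintype Unit)
  | h + 1 => letI := instFintypeLeaf d h; inferInstanceAs (Fintype (Fin d × Leaf d h))

noncomputable instance instFintypeMarks (d : ℕ) : (h : ℕ) → Fintype (Marks d h)
  | 0 => inferInstanceAs (Fintype Unit)
  | h + 1 => letI := instFintypeMarks d h; inferInstanceAs (Fintype (Fin d × (Fin d → Marks d h)))

instance instDecLeaf (d : ℕ) : (h : ℕ) → DecidableEq (Leaf d h)
  | 0 => inferInstanceAs (DecidableEq Unit)
  | h + 1 => letI := instDecLeaf d h; inferInstanceAs (DecidableEq (Fin d × Leaf d h))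

lemma card_leaf (d : ℕ) : ∀ h : ℕ, Fintype.card (Leaf d h) = d ^ h
  | 0 => by
      show Fintype.card Unit = 1
      simp
  | h + 1 => by
      have ih := card_leaf d h
      have : Fintype.card (Leaf d (h + 1)) = Fintype.card (Fin d × Leaf d h) := by
        apply Fintype.card_congr
        exact Equiv.refl _
      rw [this, Fintype.card_prod, ih, Fintype.card_fin, pow_succ, mul_comm]

instance instNonemptyMarks (d : ℕ) [NeZero d] : (h : ℕ) → Nonempty (Marks d h)
  | 0 => inferInstanceAs (Nonempty Unit)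
  | h + 1 => by
      have := instNonemptyMarks d h
      exact inferInstanceAs (Nonempty (Fin d × (Fin d → Marks d h)))

instance instNonemptyBij (d h : ℕ) : Nonempty (Leaf d h ≃ Fin (d ^ h)) :=
  ⟨Fintype.equivFinOfCardEq (card_leaf d h)⟩

/-! ### Averages -/

noncomputable def avg {A : Type} [Fintype A] (f : A → ℝ) : ℝ :=
  (∑ a, f a) / (Fintype.card A : ℝ)

lemma avg_const {A : Type} [Fintype A] [Nonempty A] (c : ℝ) : avg (fun _ : A => c) = c := by
  unfold avg
  have : (Fintype.card A : ℝ) ≠ 0 := by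
    exact_mod_cast Fintype.card_ne_zero
  simp

lemma avg_prod {A B : Type} [Fintype A] [Fintype B] (f : A × B → ℝ) :
    avg f = avg (fun a => avg (fun b => f (a, b))) := by
  unfold avg
  rw [Fintype.sum_prod_type, Fintype.card_prod]
  push_cast
  rw [← Finset.sum_div, div_div, mul_comm]

lemma avg_le_one {A : Type} [Fintype A] [Nonempty A] (f : A → ℝ) (hf : ∀ a, f a ≤ 1) :
    avg f ≤ 1 := by
  unfold avg
  have h0 : (0 : ℝ) < (Fintype.card A : ℝ) := by
    exact_mod_cast Fintype.card_pos
  rw [div_le_one h0]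
  calc ∑ a, f a ≤ ∑ _a : A, (1 : ℝ) := Finset.sum_le_sum (fun a _ => hf a)
    _ = _ := by simp

lemma avg_nonneg {A : Type} [Fintype A] (f : A → ℝ) (hf : ∀ a, 0 ≤ f a) :
    0 ≤ avg f := by
  unfold avg
  exact div_nonneg (Finset.sum_nonneg (fun a _ => hf a)) (Nat.cast_nonneg _)

lemma avg_comp {A B : Type} [Fintype A] [Fintype B] [Nonempty A] (π : A → B)
    (hπ : ∀ b b' : B, ∃ e : Equiv.Perm A, ∀ a, π a = b ↔ π (e a) = b') (f : B → ℝ) :
    avg (fun a => f (π a)) = avg f := by
  classical
  obtain ⟨a0⟩ := ‹Nonempty A›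
  set c : ℕ := (univ.filter (fun a => π a = π a0)).card with hc
  have hcard : ∀ b, (univ.filter (fun a => π a = b)).card = c := by
    intro b
    obtain ⟨e, he⟩ := hπ b (π a0)
    rw [hc]
    apply Finset.card_bij (fun a _ => e a)
    · intro a ha
      simp only [mem_filter, mem_univ, true_and] at ha ⊢
      exact (he a).1 ha
    · intro a _ b _ h
      exact e.injective h
    · intro a ha
      simp only [mem_filter, mem_univ, true_and] at ha
      refine ⟨e.symm a, ?_, by simp⟩
      simp only [mem_filter, mem_univ, true_and]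
      rw [he]
      simpa using ha
  have hcpos : 0 < c := by
    rw [hc]
    apply Finset.card_pos.2
    exact ⟨a0, by simp⟩
  have h1 : ∀ g : B → ℝ, ∑ a, g (π a) = c * ∑ b, g b := by
    intro g
    rw [← Finset.sum_fiberwise (s := univ) (g := π) (f := fun a => g (π a)), Finset.mul_sum]
    apply Finset.sum_congr rfl
    intro b _
    rw [Finset.sum_congr rfl (g := fun _ => g b)]
    · rw [Finset.sum_const, hcard, nsmul_eq_mul]
    · intro a ha
      simp only [mem_filter, mem_univ, true_and] at ha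
      rw [ha]
  have h2 : (Fintype.card A : ℝ) = c * (Fintype.card B : ℝ) := by
    have := h1 (fun _ => 1)
    simpa using this
  unfold avg
  rw [h1, h2]
  have : (c : ℝ) ≠ 0 := by exact_mod_cast hcpos.ne'
  rw [mul_div_mul_left _ _ this]

open Classical in
lemma r_eq_avg {d h : ℕ} (T : Tournament (Fin (d ^ h))) (S : Finset (Fin (d ^ h))) :
    r T S = avg (fun p : (Leaf d h ≃ Fin (d ^ h)) × Marks d h =>
      if label T h p.1 p.2 ∈ S then (1 : ℝ) else 0) := by
  unfold r winProb avg
  rw [← Finset.sum_div, Nat.card_eq_fintype_card]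
  congr 1
  rw [Finset.sum_boole]
  have : (univ.filter (fun p : (Leaf d h ≃ Fin (d ^ h)) × Marks d h => label T h p.1 p.2 ∈ S)).card
      = ∑ x ∈ S, (univ.filter (fun p : (Leaf d h ≃ Fin (d ^ h)) × Marks d h =>
          label T h p.1 p.2 = x)).card := by
    rw [Finset.card_eq_sum_card_fiberwise (f := fun p => label T h p.1 p.2) (t := S)]
    · apply Finset.sum_congr rfl
      intro x hx
      congr 1
      ext p
      simp only [mem_filter, mem_univ, true_and]
      constructor
      · rintro ⟨_, h⟩; exact h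
      · intro h; exact ⟨h ▸ hx, h⟩
    · intro p hp
      simpa using hp
  rw [this]
  push_cast
  apply Finset.sum_congr rfl
  intro x _
  rw [Nat.card_eq_fintype_card, Fintype.card_subtype]

lemma r_nonneg {d h : ℕ} (T : Tournament (Fin (d ^ h))) (S : Finset (Fin (d ^ h))) :
    0 ≤ r T S := by
  classical
  rw [r_eq_avg]
  apply avg_nonneg
  intro a
  split_ifs <;> norm_num

lemma r_le_one {d h : ℕ} [NeZero d] (T : Tournament (Fin (d ^ h))) (S : Finset (Fin (d ^ h))) :
    r T S ≤ 1 := by
  classical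
  rw [r_eq_avg]
  apply avg_le_one
  intro a
  split_ifs <;> norm_num

/-! ### Playing -/

lemma condorcet_unique {N : Type} (T : Tournament N) {X : Set N} {x y : N}
    (hx : IsCondorcet T X x) (hy : IsCondorcet T X y) : x = y := by
  by_contra hne
  have h1 := hx.2 y hy.1 (Ne.symm hne)
  have h2 := hy.2 x hx.1 hne
  exact (T.total x y hne).1 h1 h2

lemma play_of_condorcet {N : Type} (T : Tournament N) {d : ℕ} {v : Fin d → N} {m : Fin d} {x : N}
    (hx : IsCondorcet T (Set.range v) x) : play T v m = x := by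
  unfold play
  have h : ∃ x, IsCondorcet T (Set.range v) x := ⟨x, hx⟩
  rw [dif_pos h]
  exact condorcet_unique T h.choose_spec hx

lemma play_of_not {N : Type} (T : Tournament N) {d : ℕ} {v : Fin d → N} {m : Fin d}
    (hx : ¬ ∃ x, IsCondorcet T (Set.range v) x) : play T v m = v m := by
  unfold play
  rw [dif_neg hx]

lemma label_top {N : Type} (T : Tournament N) {d : ℕ} (x0 : N) (hx0 : ∀ y, y ≠ x0 → T.beats x0 y) :
    ∀ (h : ℕ) (σ : Leaf d h → N) (m : Marks d h), (∃ l, σ l = x0) → label T h σ m = x0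
  | 0, σ, m, ⟨l, hl⟩ => by
      show σ () = x0
      exact hl
  | h + 1, σ, m, ⟨l, hl⟩ => by
      show play T (fun i => label T h (fun l => σ (i, l)) (m.2 i)) m.1 = x0
      apply play_of_condorcet
      refine ⟨⟨l.1, ?_⟩, fun y _ hy => hx0 y hy⟩
      exact label_top T x0 hx0 h _ _ ⟨l.2, hl⟩

lemma r_top {d h : ℕ} [NeZero d] (T : Tournament (Fin (d ^ h))) (S : Finset (Fin (d ^ h)))
    (x0 : Fin (d ^ h)) (hx0 : ∀ y, y ≠ x0 → T.beats x0 y) (hS : x0 ∈ S) : r T S = 1 := by
  classical
  rw [r_eq_avg]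
  have : (fun p : (Leaf d h ≃ Fin (d ^ h)) × Marks d h =>
      if label T h p.1 p.2 ∈ S then (1 : ℝ) else 0) = fun _ => 1 := by
    funext p
    have : label T h p.1 p.2 = x0 := by
      apply label_top T x0 hx0
      exact p.1.surjective x0
    rw [this, if_pos hS]
  rw [this, avg_const]

/-! ### The tournaments -/

/-- Team `0` beats all other teams except those in `F`, and among the other teams the one with the
smaller number wins. -/
def TF (n : ℕ) (F : Set ℕ) : Tournament (Fin n) where
  beats x y := (x.val = 0 ∧ y.val ≠ 0 ∧ y.val ∉ F) ∨ (x.val ≠ 0 ∧ y.val = 0 ∧ x.val ∈ F) ∨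
    (x.val ≠ 0 ∧ y.val ≠ 0 ∧ x.val < y.val)
  irrefl x := by
    rintro (⟨h1, h2, _⟩ | ⟨h1, h2, _⟩ | ⟨_, _, h⟩)
    · exact h2 h1
    · exact h1 h2
    · exact lt_irrefl _ h
  total x y hxy := by
    have hne : x.val ≠ y.val := fun h => hxy (Fin.ext h)
    by_cases hx : x.val = 0
    · have hy : y.val ≠ 0 := fun h => hne (hx.trans h.symm)
      simp [hx, hy]
    · by_cases hy : y.val = 0
      · simp [hx, hy]
      · simp [hx, hy]
        omega

lemma TF_adjacent {n : ℕ} (F : Set ℕ) (S : Finset (Fin n)) (h0 : ∀ x : Fin n, x.val = 0 → x ∈ S)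
    (hF : ∀ x : Fin n, x.val ∈ F → x ∈ S) : Adjacent S (TF n F) (TF n ∅) := by
  intro x y hxy
  show ((x.val = 0 ∧ y.val ≠ 0 ∧ y.val ∉ F) ∨ (x.val ≠ 0 ∧ y.val = 0 ∧ x.val ∈ F) ∨
    (x.val ≠ 0 ∧ y.val ≠ 0 ∧ x.val < y.val)) ↔ ((x.val = 0 ∧ y.val ≠ 0 ∧ y.val ∉ (∅ : Set ℕ)) ∨
    (x.val ≠ 0 ∧ y.val = 0 ∧ x.val ∈ (∅ : Set ℕ)) ∨ (x.val ≠ 0 ∧ y.val ≠ 0 ∧ x.val < y.val))
  have h1 : x.val = 0 → y.val ∈ F → False := fun hx hy => hxy ⟨h0 x hx, hF y hy⟩
  have h2 : y.val = 0 → x.val ∈ F → False := fun hx hy => hxy ⟨hF x hy, h0 y hx⟩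
  constructor
  · rintro (⟨a, b, c⟩ | ⟨a, b, c⟩ | h)
    · left; exact ⟨a, b, by simp⟩
    · exact (h2 b c).elim
    · right; right; exact h
  · rintro (⟨a, b, c⟩ | ⟨a, b, c⟩ | h)
    · left; exact ⟨a, b, fun h => h1 a h⟩
    · exact absurd c (by simp)
    · right; right; exact h

lemma TF_top {n : ℕ} (x0 : Fin n) (hx0 : x0.val = 0) : ∀ y, y ≠ x0 → (TF n ∅).beats x0 y := by
  intro y hy
  left
  refine ⟨hx0, ?_, by simp⟩
  intro h
  exact hy (Fin.ext (h.trans hx0.symm))

/-! ### Random injections and their group vectors -/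

/-- Sum of `F` over all `γ : Fin k → Fin d`, weighted by the number of injections `p` of `Fin k`
into a set with `d` groups of size `B` with group vector `γ`. -/
def wsum (d B : ℕ) : (k : ℕ) → ((Fin k → Fin d) → ℕ) → ℕ
  | 0, F => F Fin.elim0
  | k + 1, F => ∑ a : Fin d, wsum d B k (fun γ =>
      (B - (univ.filter (fun i => γ i = a)).card) * F (Fin.cons a γ))

lemma sum_embedding {L : Type} [Fintype L] [DecidableEq L] {d : ℕ} (B : ℕ) (g : L → Fin d)
    (hg : ∀ a, (univ.filter (fun x => g x = a)).card = B) :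
    ∀ (k : ℕ) (F : (Fin k → Fin d) → ℕ), ∑ p : Fin k ↪ L, F (g ∘ p) = wsum d B k F
  | 0, F => by
      rw [wsum]
      have h1 : ∀ p : Fin 0 ↪ L, F (g ∘ p) = F Fin.elim0 := by
        intro p
        congr 1
        funext i
        exact i.elim0
      rw [Finset.sum_congr rfl (fun p _ => h1 p)]
      simp
  | k + 1, F => by
      rw [wsum]
      have h1 : ∑ p : Fin (k + 1) ↪ L, F (g ∘ p) =
          ∑ e : Fin k ↪ L, ∑ x : {x // x ∉ Set.range e}, F (Fin.cons (g x) (g ∘ e)) := by
        have h0 : ∑ p : Fin (k + 1) ↪ L, F (g ∘ p) =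
            ∑ s : (Σ (e : Fin k ↪ L), {i // i ∉ Set.range e}),
              F (Fin.cons (g s.2.1) (g ∘ s.1)) := by
          apply Fintype.sum_equiv (Equiv.embeddingFinSucc k L)
          intro p
          congr 1
          funext i
          refine Fin.cases ?_ (fun j => ?_) i
          · simp
          · simp
        rw [h0, Fintype.sum_sigma]
      rw [h1]
      have h2 : ∀ e : Fin k ↪ L, ∑ x : {x // x ∉ Set.range e}, F (Fin.cons (g x) (g ∘ e)) =
          ∑ a : Fin d, (B - (univ.filter (fun i => (g ∘ e) i = a)).card) *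
            F (Fin.cons a (g ∘ e)) := by
        intro e
        have h3 : ∑ x : {x // x ∉ Set.range e}, F (Fin.cons (g x) (g ∘ e)) =
            ∑ x ∈ univ.filter (fun x : L => x ∉ Set.range e), F (Fin.cons (g x) (g ∘ e)) := by
          rw [Finset.sum_subtype (univ.filter (fun x : L => x ∉ Set.range e))
            (p := fun x => x ∉ Set.range e) (by simp) (fun x => F (Fin.cons (g x) (g ∘ e)))]
        rw [h3, ← Finset.sum_fiberwise (s := univ.filter (fun x : L => x ∉ Set.range e)) (g := g)]
        apply Finset.sum_congr rfl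
        intro a _
        rw [Finset.sum_congr rfl (g := fun _ => F (Fin.cons a (g ∘ e)))]
        · rw [Finset.sum_const, smul_eq_mul]
          congr 1
          have h4 : (univ.filter (fun x : L => x ∉ Set.range e)).filter (fun x => g x = a) =
              (univ.filter (fun x => g x = a)) \
                (univ.filter (fun i : Fin k => (g ∘ e) i = a)).map e := by
            ext x
            simp only [mem_filter, mem_univ, true_and, Set.mem_range, mem_sdiff, mem_map,
              Function.comp, not_exists]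
            constructor
            · rintro ⟨h, h'⟩
              refine ⟨h', fun i hi => h i hi.2⟩
            · rintro ⟨h, h'⟩
              refine ⟨fun i hi => h' i ⟨by rw [hi]; exact h, hi⟩, h⟩
          rw [h4, Finset.card_sdiff_of_subset, hg, Finset.card_map]
          intro x hx
          simp only [mem_map, mem_filter, mem_univ, true_and, Function.comp] at hx ⊢
          obtain ⟨i, hi, rfl⟩ := hx
          exact hi
        · intro x hx
          rw [(Finset.mem_filter.1 hx).2]
      rw [Finset.sum_congr rfl (fun e _ => h2 e), Finset.sum_comm]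
      apply Finset.sum_congr rfl
      intro a _
      exact sum_embedding B g hg k (fun γ =>
        (B - (univ.filter (fun i => γ i = a)).card) * F (Fin.cons a γ))

/-! ### Codes -/

/-- The outcome, as a code, of a node with children of codes `c` and mark `m`. -/
def cplay {d : ℕ} (c : Fin d → ℕ) (m : Fin d) : ℕ :=
  if (∃ i, c i = 0) ∧ ((∃ i, c i = 3) ∨ (∃ i, c i = 4)) then
    (if (∃ i, c i = 1) ∨ (∃ i, c i = 2) then c m else if (∃ i, c i = 3) then 3 else 4)
  else if (∃ i, c i = 0) then 0
  else if (∃ i, c i = 1) then 1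
  else if (∃ i, c i = 2) then 2
  else if (∃ i, c i = 3) then 3
  else if (∃ i, c i = 4) then 4
  else 5

/-- The outcome, as a code, of the group number `g` when team number `k < 5` is in the group
number `γ k`; `l` is the code of the team selected by the mark. -/
def gplay {d : ℕ} (γ : Fin 5 → Fin d) (g : Fin d) (l : ℕ) : ℕ :=
  if γ 0 = g ∧ (γ 3 = g ∨ γ 4 = g) then
    (if γ 1 = g ∨ γ 2 = g then l else if γ 3 = g then 3 else 4)
  else if γ 0 = g then 0
  else if γ 1 = g then 1
  else if γ 2 = g then 2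
  else if γ 3 = g then 3
  else if γ 4 = g then 4
  else 5

/-- Whether the code of the final winner is `0`, `3` or `4`. -/
def H {d : ℕ} (γ : Fin 5 → Fin d) (m : Fin d) (l : ℕ) : ℕ :=
  if cplay (fun g => gplay γ g l) m = 0 ∨ cplay (fun g => gplay γ g l) m = 3 ∨
    cplay (fun g => gplay γ g l) m = 4 then 1 else 0

/-- The number of pairs (root mark, mark of the group of team 0) for which `S` wins. -/
def Psi {d : ℕ} (γ : Fin 5 → Fin d) : ℕ :=
  ∑ m : Fin d, ((∑ k : Fin 5, if γ k = γ 0 then H γ m k.val else 0) +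
    (d - (univ.filter (fun k => γ k = γ 0)).card) * H γ m 5)

set_option maxRecDepth 100000 in
lemma wsum_three : wsum 3 3 5 Psi = 62532 := by decide +kernel

set_option maxRecDepth 100000 in
lemma wsum_four : wsum 4 4 5 Psi = 3548160 := by decide +kernel

def code {n : ℕ} (x : Fin n) : ℕ := min x.val 5

lemma code_eq_iff {n : ℕ} (x : Fin n) {k : ℕ} (hk : k < 5) : code x = k ↔ x.val = k := by
  unfold code
  omega

lemma code_play {n d : ℕ} (v : Fin d → Fin n) (m : Fin d) :
    code (play (TF n {3, 4}) v m) = cplay (fun i => code (v i)) m := by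
  have e0 : (∃ i, code (v i) = 0) ↔ ∃ i, (v i).val = 0 := by simp [code_eq_iff]
  have e1 : (∃ i, code (v i) = 1) ↔ ∃ i, (v i).val = 1 := by simp [code_eq_iff]
  have e2 : (∃ i, code (v i) = 2) ↔ ∃ i, (v i).val = 2 := by simp [code_eq_iff]
  have e3 : (∃ i, code (v i) = 3) ↔ ∃ i, (v i).val = 3 := by simp [code_eq_iff]
  have e4 : (∃ i, code (v i) = 4) ↔ ∃ i, (v i).val = 4 := by simp [code_eq_iff]
  have hb : ∀ x y : Fin n, (TF n {3, 4}).beats x y ↔
      ((x.val = 0 ∧ y.val ≠ 0 ∧ y.val ∉ ({3, 4} : Set ℕ)) ∨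
        (x.val ≠ 0 ∧ y.val = 0 ∧ x.val ∈ ({3, 4} : Set ℕ)) ∨
        (x.val ≠ 0 ∧ y.val ≠ 0 ∧ x.val < y.val)) := fun x y => Iff.rfl
  have hne : ∀ x y : Fin n, x ≠ y → x.val ≠ y.val := fun x y h h' => h (Fin.ext h')
  unfold cplay
  simp only [e0, e1, e2, e3, e4]
  by_cases h0 : ∃ i, (v i).val = 0
  · obtain ⟨i0, hi0⟩ := h0
    have h0 : ∃ i, (v i).val = 0 := ⟨i0, hi0⟩
    by_cases h34 : (∃ i, (v i).val = 3) ∨ (∃ i, (v i).val = 4)
    · rw [if_pos ⟨h0, h34⟩]
      by_cases h12 : (∃ i, (v i).val = 1) ∨ (∃ i, (v i).val = 2)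
      · rw [if_pos h12, play_of_not]
        rintro ⟨x, ⟨i, rfl⟩, hx⟩
        have key : ∀ j, (v j).val ≠ (v i).val → (TF n {3, 4}).beats (v i) (v j) := by
          intro j hj
          exact hx (v j) ⟨j, rfl⟩ (fun h => hj (by rw [h]))
        obtain ⟨a, ha⟩ : ∃ a, (v a).val = 3 ∨ (v a).val = 4 := by
          rcases h34 with ⟨a, ha⟩ | ⟨a, ha⟩
          · exact ⟨a, Or.inl ha⟩
          · exact ⟨a, Or.inr ha⟩
        obtain ⟨b, hb'⟩ : ∃ b, (v b).val = 1 ∨ (v b).val = 2 := by
          rcases h12 with ⟨b, hb⟩ | ⟨b, hb⟩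
          · exact ⟨b, Or.inl hb⟩
          · exact ⟨b, Or.inr hb⟩
        by_cases hi : (v i).val = 0
        · have := key a (by omega)
          rw [hb] at this
          simp only [Set.mem_insert_iff, Set.mem_singleton_iff] at this
          omega
        · have h1 := key i0 (by omega)
          rw [hb] at h1
          simp only [Set.mem_insert_iff, Set.mem_singleton_iff] at h1
          have h2 := key b (by omega)
          rw [hb] at h2
          simp only [Set.mem_insert_iff, Set.mem_singleton_iff] at h2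
          omega
      · rw [if_neg h12]
        push Not at h12
        by_cases h3 : ∃ i, (v i).val = 3
        · rw [if_pos h3]
          obtain ⟨i, hi⟩ := h3
          have hc : IsCondorcet (TF n {3, 4}) (Set.range v) (v i) := by
            refine ⟨⟨i, rfl⟩, ?_⟩
            rintro _ ⟨j, rfl⟩ hj
            have hj' := hne _ _ hj
            have h1 := h12.1 j
            have h2 := h12.2 j
            rw [hb]
            simp only [hi]
            simp
            omega
          rw [play_of_condorcet _ hc]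
          unfold code
          omega
        · rw [if_neg h3]
          push Not at h3
          obtain ⟨i, hi⟩ : ∃ i, (v i).val = 4 := by
            rcases h34 with ⟨a, ha⟩ | h
            · exact absurd ha (h3 a)
            · exact h
          have hc : IsCondorcet (TF n {3, 4}) (Set.range v) (v i) := by
            refine ⟨⟨i, rfl⟩, ?_⟩
            rintro _ ⟨j, rfl⟩ hj
            have hj' := hne _ _ hj
            have h1 := h12.1 j
            have h2 := h12.2 j
            have h3 := h3 j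
            rw [hb]
            simp only [hi]
            simp
            omega
          rw [play_of_condorcet _ hc]
          unfold code
          omega
    · rw [if_neg (fun h => h34 h.2), if_pos h0]
      push Not at h34
      have hc : IsCondorcet (TF n {3, 4}) (Set.range v) (v i0) := by
        refine ⟨⟨i0, rfl⟩, ?_⟩
        rintro _ ⟨j, rfl⟩ hj
        have hj' := hne _ _ hj
        have h1 := h34.1 j
        have h2 := h34.2 j
        rw [hb]
        simp only [hi0]
        simp
        omega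
      rw [play_of_condorcet _ hc]
      unfold code
      omega
  · rw [if_neg (fun h => h0 h.1), if_neg h0]
    push Not at h0
    obtain ⟨i, hi⟩ : ∃ i, ∀ j, (v i).val ≤ (v j).val := by
      have : Nonempty (Fin d) := ⟨m⟩
      exact Finite.exists_min (fun j => (v j).val)
    have hc : IsCondorcet (TF n {3, 4}) (Set.range v) (v i) := by
      refine ⟨⟨i, rfl⟩, ?_⟩
      rintro _ ⟨j, rfl⟩ hj
      have hj' := hne _ _ hj
      have h1 := h0 i
      have h2 := h0 j
      have h3 := hi j
      rw [hb]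
      right; right
      omega
    rw [play_of_condorcet _ hc]
    have hi0 := h0 i
    split_ifs with h1 h2 h3 h4
    · obtain ⟨j, hj⟩ := h1
      have := hi j
      unfold code
      omega
    · push Not at h1
      obtain ⟨j, hj⟩ := h2
      have := hi j
      have := h1 i
      unfold code
      omega
    · push Not at h1 h2
      obtain ⟨j, hj⟩ := h3
      have := hi j
      have := h1 i
      have := h2 i
      unfold code
      omega
    · push Not at h1 h2 h3
      obtain ⟨j, hj⟩ := h4
      have := hi j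
      have := h1 i
      have := h2 i
      have := h3 i
      unfold code
      omega
    · push Not at h1 h2 h3 h4
      have := h1 i
      have := h2 i
      have := h3 i
      have := h4 i
      unfold code
      omega

/-! ### The tree of height 2 -/

lemma exists_code_iff {d : ℕ} (σ : Leaf d 2 ≃ Fin (d ^ 2)) (p : Fin 5 → Leaf d 2)
    (hp : ∀ k, (σ (p k)).val = k.val) (g : Fin d) (k : Fin 5) :
    (∃ j, code (σ (g, (j, ()))) = k.val) ↔ (p k).1 = g := by
  constructor
  · rintro ⟨j, hj⟩
    rw [code_eq_iff _ k.2, ← hp k] at hj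
    have : ((g, (j, ())) : Leaf d 2) = p k := σ.injective (Fin.ext hj)
    rw [← this]
  · intro h
    refine ⟨(p k).2.1, ?_⟩
    rw [code_eq_iff _ k.2, ← hp k]
    congr 2
    subst h
    rfl

lemma cplay_eq_gplay {d : ℕ} (σ : Leaf d 2 ≃ Fin (d ^ 2)) (p : Fin 5 → Leaf d 2)
    (hp : ∀ k, (σ (p k)).val = k.val) (g j : Fin d) :
    cplay (fun j => code (σ (g, (j, ())))) j =
      gplay (fun k => (p k).1) g (code (σ (g, (j, ())))) := by
  have e := exists_code_iff σ p hp g
  have e0 := e 0
  have e1 := e 1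
  have e2 := e 2
  have e3 := e 3
  have e4 := e 4
  simp only [Fin.val_zero] at e0
  simp only [Fin.val_one] at e1
  simp only [show ((2 : Fin 5) : ℕ) = 2 from rfl] at e2
  simp only [show ((3 : Fin 5) : ℕ) = 3 from rfl] at e3
  simp only [show ((4 : Fin 5) : ℕ) = 4 from rfl] at e4
  unfold cplay gplay
  simp only [e0, e1, e2, e3, e4]

lemma gplay_other {d : ℕ} (γ : Fin 5 → Fin d) (g : Fin d) (l l' : ℕ) (h : γ 0 ≠ g) :
    gplay γ g l = gplay γ g l' := by
  simp only [gplay, h, false_and, if_false]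

lemma code_label {d : ℕ} (σ : Leaf d 2 ≃ Fin (d ^ 2)) (p : Fin 5 → Leaf d 2)
    (hp : ∀ k, (σ (p k)).val = k.val) (m : Marks d 2) :
    code (label (TF (d ^ 2) {3, 4}) 2 σ m) =
      cplay (fun g => gplay (fun k => (p k).1) g
        (code (σ ((p 0).1, ((m.2 (p 0).1).1, ()))))) m.1 := by
  have h1 : label (TF (d ^ 2) {3, 4}) 2 σ m =
      play (TF (d ^ 2) {3, 4}) (fun g => play (TF (d ^ 2) {3, 4}) (fun j => σ (g, (j, ())))
        (m.2 g).1) m.1 := rfl
  rw [h1, code_play]
  congr 1
  funext g
  rw [code_play, cplay_eq_gplay σ p hp]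
  by_cases hg : (p 0).1 = g
  · subst hg
    rfl
  · exact gplay_other _ _ _ _ hg

lemma ind_label {d : ℕ} (σ : Leaf d 2 ≃ Fin (d ^ 2)) (p : Fin 5 → Leaf d 2)
    (hp : ∀ k, (σ (p k)).val = k.val) (m : Marks d 2) (S : Finset (Fin (d ^ 2)))
    (hS : ∀ x, x ∈ S ↔ (x.val = 0 ∨ x.val = 3 ∨ x.val = 4)) [Decidable
      (label (TF (d ^ 2) {3, 4}) 2 σ m ∈ S)] :
    (if label (TF (d ^ 2) {3, 4}) 2 σ m ∈ S then (1 : ℝ) else 0) =
      ((H (fun k => (p k).1) m.1 (code (σ ((p 0).1, ((m.2 (p 0).1).1, ())))) : ℕ) : ℝ) := by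
  unfold H
  rw [← code_label σ p hp m]
  have : (label (TF (d ^ 2) {3, 4}) 2 σ m ∈ S) ↔ (code (label (TF (d ^ 2) {3, 4}) 2 σ m) = 0 ∨
      code (label (TF (d ^ 2) {3, 4}) 2 σ m) = 3 ∨ code (label (TF (d ^ 2) {3, 4}) 2 σ m) = 4) := by
    rw [hS, code_eq_iff _ (by norm_num), code_eq_iff _ (by norm_num), code_eq_iff _ (by norm_num)]
  by_cases h : label (TF (d ^ 2) {3, 4}) 2 σ m ∈ S
  · rw [if_pos h, if_pos (this.1 h)]
    norm_num
  · rw [if_neg h, if_neg (fun h' => h (this.2 h'))]
    norm_num

lemma sum_marks {d : ℕ} (σ : Leaf d 2 ≃ Fin (d ^ 2)) (p : Fin 5 → Leaf d 2)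
    (hp : ∀ k, (σ (p k)).val = k.val) (f : ℕ → ℕ) :
    ∑ j : Fin d, f (code (σ ((p 0).1, (j, ())))) =
      (∑ k : Fin 5, if (p k).1 = (p 0).1 then f k.val else 0) +
        (d - (univ.filter (fun k => (p k).1 = (p 0).1)).card) * f 5 := by
  classical
  set K := univ.filter (fun k => (p k).1 = (p 0).1) with hK
  have hinj : Set.InjOn (fun k => (p k).2.1) (K : Set (Fin 5)) := by
    intro k hk k' hk' h
    simp only [hK, coe_filter, mem_univ, true_and, Set.mem_ofPred_eq] at hk hk'
    simp only at h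
    have : p k = p k' := by
      have h1 : (p k) = ((p k).1, ((p k).2.1, ())) := rfl
      have h2 : (p k') = ((p k').1, ((p k').2.1, ())) := rfl
      rw [h1, h2, hk, hk', h]
    have h3 := hp k
    rw [this, hp k'] at h3
    exact Fin.ext h3.symm
  set J := K.image (fun k => (p k).2.1) with hJ
  have hJc : J.card = K.card := Finset.card_image_of_injOn hinj
  rw [← Finset.sum_add_sum_compl J]
  congr 1
  · rw [hJ, Finset.sum_image hinj, ← Finset.sum_filter]
    apply Finset.sum_congr rfl
    intro k hk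
    simp only [hK, mem_filter, mem_univ, true_and] at hk
    congr 1
    rw [code_eq_iff _ k.2, ← hp k, ← hk]
    rfl
  · rw [Finset.sum_congr rfl (g := fun _ => f 5)]
    · rw [Finset.sum_const, Finset.card_compl, hJc, Fintype.card_fin, smul_eq_mul]
    · intro j hj
      congr 1
      rw [Finset.mem_compl] at hj
      have hc : ∀ k : Fin 5, code (σ ((p 0).1, (j, ()))) ≠ k.val := by
        intro k hk
        rw [code_eq_iff _ k.2, ← hp k] at hk
        have : (((p 0).1, (j, ())) : Leaf d 2) = p k := σ.injective (Fin.ext hk)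
        apply hj
        rw [hJ, Finset.mem_image]
        refine ⟨k, ?_, ?_⟩
        · simp only [hK, mem_filter, mem_univ, true_and]
          rw [← this]
        · rw [← this]
      have h0 := hc 0
      have h1 := hc 1
      have h2 := hc 2
      have h3 := hc 3
      have h4 := hc 4
      simp only [Fin.val_zero] at h0
      simp only [Fin.val_one] at h1
      simp only [show ((2 : Fin 5) : ℕ) = 2 from rfl] at h2
      simp only [show ((3 : Fin 5) : ℕ) = 3 from rfl] at h3
      simp only [show ((4 : Fin 5) : ℕ) = 4 from rfl] at h4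
      unfold code at *
      omega

lemma card_group (d : ℕ) (a : Fin d) :
    (univ.filter (fun x : Leaf d 2 => x.1 = a)).card = d := by
  have h : (univ.filter (fun x : Leaf d 2 => x.1 = a)).card = (univ : Finset (Fin d)).card := by
    apply Finset.card_bij' (fun (x : Leaf d 2) _ => x.2.1)
      (fun (j : Fin d) _ => ((a, (j, ())) : Leaf d 2))
    · intro x _
      exact mem_univ _
    · intro j _
      exact Finset.mem_filter.2 ⟨mem_univ _, rfl⟩
    · intro x hx
      have h := (Finset.mem_filter.1 hx).2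
      subst h
      rfl
    · intro j _
      rfl
  rw [h, Finset.card_univ, Fintype.card_fin]

/-- The positions of the teams `0, …, 4`. -/
noncomputable def pos {d : ℕ} (h5 : 5 ≤ d ^ 2) (σ : Leaf d 2 ≃ Fin (d ^ 2)) : Fin 5 ↪ Leaf d 2 :=
  (Fin.castLEEmb h5).trans σ.symm.toEmbedding

lemma pos_apply {d : ℕ} (h5 : 5 ≤ d ^ 2) (σ : Leaf d 2 ≃ Fin (d ^ 2)) (k : Fin 5) :
    (σ (pos h5 σ k)).val = k.val := by
  simp [pos]

lemma r_two {d : ℕ} [NeZero d] (h5 : 5 ≤ d ^ 2) (S : Finset (Fin (d ^ 2)))
    (hS : ∀ x, x ∈ S ↔ (x.val = 0 ∨ x.val = 3 ∨ x.val = 4)) :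
    r (TF (d ^ 2) {3, 4}) S = (wsum d d 5 Psi : ℝ) / ((d ^ 2).descFactorial 5 * (d * d)) := by
  classical
  rw [r_eq_avg, avg_prod]
  have h1 : ∀ σ : Leaf d 2 ≃ Fin (d ^ 2),
      avg (fun m : Marks d 2 => if label (TF (d ^ 2) {3, 4}) 2 σ m ∈ S then (1 : ℝ) else 0) =
      (Psi ((fun x : Leaf d 2 => x.1) ∘ (pos h5 σ)) : ℝ) / (d * d) := by
    intro σ
    have hp := pos_apply h5 σ
    set p := pos h5 σ with hpdef
    set γ : Fin 5 → Fin d := fun k => (p k).1 with hγ
    have h2 : avg (fun m : Marks d 2 => if label (TF (d ^ 2) {3, 4}) 2 σ m ∈ S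
          then (1 : ℝ) else 0) =
        avg (fun m : Fin d × (Fin d → Marks d 1) =>
          ((H γ m.1 (code (σ ((p 0).1, ((m.2 (p 0).1).1, ())))) : ℕ) : ℝ)) := by
      have : (fun m : Marks d 2 => if label (TF (d ^ 2) {3, 4}) 2 σ m ∈ S
          then (1 : ℝ) else 0) = (fun m : Marks d 2 =>
          ((H γ m.1 (code (σ ((p 0).1, ((m.2 (p 0).1).1, ())))) : ℕ) : ℝ)) := by
        funext m
        exact ind_label σ p hp m S hS
      rw [this]
      rfl
    rw [h2, avg_prod]
    have h3 : ∀ m0 : Fin d, avg (fun ms : Fin d → Marks d 1 =>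
          ((H γ m0 (code (σ ((p 0).1, ((ms (p 0).1).1, ())))) : ℕ) : ℝ)) =
        avg (fun j : Fin d => ((H γ m0 (code (σ ((p 0).1, (j, ())))) : ℕ) : ℝ)) := by
      intro m0
      have hπ : ∀ b b' : Fin d, ∃ e : Equiv.Perm (Fin d → Marks d 1), ∀ a,
          (a (p 0).1).1 = b ↔ ((e a) (p 0).1).1 = b' := by
        intro b b'
        refine ⟨Equiv.piCongrRight (fun _ => (show Equiv.Perm (Marks d 1) from
          (Equiv.swap b b').prodCongr (Equiv.refl _))), ?_⟩
        intro a
        have : ((Equiv.piCongrRight (fun _ => (show Equiv.Perm (Marks d 1) from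
          (Equiv.swap b b').prodCongr (Equiv.refl _))) a) (p 0).1).1 =
            Equiv.swap b b' (a (p 0).1).1 := rfl
        rw [this]
        constructor
        · intro h
          rw [h, Equiv.swap_apply_left]
        · intro h
          have := congrArg (Equiv.swap b b') h
          simpa using this
      exact avg_comp (fun ms : Fin d → Marks d 1 => (ms (p 0).1).1) hπ
        (fun j : Fin d => ((H γ m0 (code (σ ((p 0).1, (j, ())))) : ℕ) : ℝ))
    rw [funext h3]
    unfold avg
    rw [← Finset.sum_div, div_div, Fintype.card_fin]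
    congr 1
    have h4 : ∀ m0 : Fin d, ∑ j : Fin d, ((H γ m0 (code (σ ((p 0).1, (j, ())))) : ℕ) : ℝ) =
        (((∑ k : Fin 5, if (p k).1 = (p 0).1 then H γ m0 k.val else 0) +
        (d - (univ.filter (fun k => (p k).1 = (p 0).1)).card) * H γ m0 5 : ℕ) : ℝ) := by
      intro m0
      rw [← sum_marks σ p hp (H γ m0)]
      push_cast
      rfl
    rw [Finset.sum_congr rfl (fun m0 _ => h4 m0)]
    unfold Psi
    rw [Nat.cast_sum]
    rfl
  rw [funext h1]
  have hπ : ∀ b b' : Fin 5 ↪ Leaf d 2, ∃ e : Equiv.Perm (Leaf d 2 ≃ Fin (d ^ 2)), ∀ a,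
      pos h5 a = b ↔ pos h5 (e a) = b' := by
    intro b b'
    obtain ⟨τ, hτ⟩ := Equiv.Perm.exists_extending_pair b b' b.injective b'.injective
    refine ⟨⟨fun σ => τ.symm.trans σ, fun σ => τ.trans σ, ?_, ?_⟩, ?_⟩
    · intro σ
      ext x
      simp
    · intro σ
      ext x
      simp
    · intro a
      have h : ∀ k, pos h5 (τ.symm.trans a) k = τ (pos h5 a k) := by
        intro k
        simp [pos]
      constructor
      · intro hab
        ext k
        show pos h5 (τ.symm.trans a) k = b' k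
        rw [h, hab, hτ]
      · intro hab
        ext k
        have h6 : pos h5 (τ.symm.trans a) k = b' k := congrArg (fun x : Fin 5 ↪ Leaf d 2 => x k) hab
        rw [h, ← hτ k] at h6
        exact τ.injective h6
  rw [avg_comp (pos h5) hπ (fun p => (Psi ((fun x : Leaf d 2 => x.1) ∘ p) : ℝ) / (d * d))]
  unfold avg
  rw [← Finset.sum_div, div_div, ← Nat.cast_sum,
    sum_embedding d (fun x : Leaf d 2 => x.1) (card_group d) 5 Psi, Fintype.card_embedding_eq,
    card_leaf, Fintype.card_fin, mul_comm]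

/-! ### Height 1 -/

lemma r_one {d : ℕ} [NeZero d] (h3 : 3 ≤ d) (S : Finset (Fin (d ^ 1))) (hS : S.card = 2) :
    r (TF (d ^ 1) {2}) S = 2 / (d : ℝ) := by
  classical
  rw [r_eq_avg]
  have hd : d ^ 1 = d := pow_one d
  have h1 : ∀ p : (Leaf d 1 ≃ Fin (d ^ 1)) × Marks d 1,
      label (TF (d ^ 1) {2}) 1 p.1 p.2 = p.1 (p.2.1, ()) := by
    intro p
    have h1 : label (TF (d ^ 1) {2}) 1 p.1 p.2 =
      play (TF (d ^ 1) {2}) (fun j => p.1 (j, ())) p.2.1 := rfl
    rw [h1, play_of_not]
    rintro ⟨x, _, hx⟩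
    have hb : ∀ x y : Fin (d ^ 1), (TF (d ^ 1) {2}).beats x y ↔
      ((x.val = 0 ∧ y.val ≠ 0 ∧ y.val ∉ ({2} : Set ℕ)) ∨
        (x.val ≠ 0 ∧ y.val = 0 ∧ x.val ∈ ({2} : Set ℕ)) ∨
        (x.val ≠ 0 ∧ y.val ≠ 0 ∧ x.val < y.val)) := fun x y => Iff.rfl
    have key : ∀ k : ℕ, ∀ hk : k < d ^ 1, x.val ≠ k → (TF (d ^ 1) {2}).beats x ⟨k, hk⟩ := by
      intro k hk hxk
      apply hx
      · refine ⟨(p.1.symm ⟨k, hk⟩).1, ?_⟩
        show p.1 ((p.1.symm ⟨k, hk⟩).1, ()) = _
        have : (((p.1.symm ⟨k, hk⟩).1, ()) : Leaf d 1) = p.1.symm ⟨k, hk⟩ := rfl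
        rw [this, Equiv.apply_symm_apply]
      · intro h
        apply hxk
        rw [← h]
    by_cases h0 : x.val = 0
    · have := key 2 (by omega) (by omega)
      rw [hb] at this
      simp [h0] at this
    · have h1 := key 0 (by omega) (by omega)
      rw [hb] at h1
      simp only [Set.mem_singleton_iff] at h1
      have h2 := key 1 (by omega) (by omega)
      rw [hb] at h2
      simp only [Set.mem_singleton_iff] at h2
      omega
  have h2 : (fun p : (Leaf d 1 ≃ Fin (d ^ 1)) × Marks d 1 =>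
      if label (TF (d ^ 1) {2}) 1 p.1 p.2 ∈ S then (1 : ℝ) else 0) =
      (fun p : (Leaf d 1 ≃ Fin (d ^ 1)) × Marks d 1 =>
        (fun x : Fin (d ^ 1) => if x ∈ S then (1 : ℝ) else 0) (p.1 (p.2.1, ()))) := by
    funext p
    rw [h1 p]
  rw [h2]
  have hπ : ∀ b b' : Fin (d ^ 1), ∃ e : Equiv.Perm ((Leaf d 1 ≃ Fin (d ^ 1)) × Marks d 1), ∀ a,
      (a.1 (a.2.1, ()) = b ↔ (e a).1 ((e a).2.1, ()) = b') := by
    intro b b'
    refine ⟨⟨fun a => (a.1.trans (Equiv.swap b b'), a.2), fun a =>
      (a.1.trans (Equiv.swap b b'), a.2), ?_, ?_⟩, ?_⟩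
    · intro a
      ext x
      · simp
      · rfl
    · intro a
      ext x
      · simp
      · rfl
    · intro a
      show a.1 (a.2.1, ()) = b ↔ Equiv.swap b b' (a.1 (a.2.1, ())) = b'
      constructor
      · intro h
        rw [h, Equiv.swap_apply_left]
      · intro h
        have := congrArg (Equiv.swap b b') h
        simpa using this
  rw [avg_comp (fun p : (Leaf d 1 ≃ Fin (d ^ 1)) × Marks d 1 => p.1 (p.2.1, ())) hπ
    (fun x : Fin (d ^ 1) => if x ∈ S then (1 : ℝ) else 0)]
  unfold avg
  rw [Finset.sum_boole, Fintype.card_fin]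
  simp [hS]

/-! ### The bound -/

lemma gain_le {d h k : ℕ} {α : ℝ} (hα : SNM d h k α) (F : Set ℕ)
    (S : Finset (Fin (d ^ h))) (hS : S.card ≤ k) (hS' : ∀ x, x ∈ S ↔ (x.val = 0 ∨ x.val ∈ F))
    [NeZero d] : 1 - r (TF (d ^ h) F) S ≤ α := by
  have hpos : 0 < d ^ h := Nat.pow_pos (Nat.pos_of_ne_zero (NeZero.ne d))
  have h1 := hα (TF (d ^ h) F) (TF (d ^ h) ∅) S hS
    (TF_adjacent F S (fun x hx => (hS' x).2 (Or.inl hx)) (fun x hx => (hS' x).2 (Or.inr hx)))
  rw [r_top (TF (d ^ h) ∅) S ⟨0, hpos⟩ (TF_top _ rfl) ((hS' _).2 (Or.inl rfl))] at h1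
  exact h1

lemma SNM_one (d h k : ℕ) [NeZero d] : SNM d h k 1 := by
  intro T T' S _ _
  have h1 := r_le_one T' S
  have h2 := r_nonneg T S
  linarith

lemma lower {d k : ℕ} (hk : 3 ≤ k) (hkd : k ≤ d) {α : ℝ} (hα : ∀ h, 1 ≤ h → SNM d h k α) :
    (227 / 420 : ℝ) ≤ α := by
  have hd : NeZero d := ⟨by omega⟩
  by_cases hd5 : 5 ≤ d
  · have hd1 : d ^ 1 = d := pow_one d
    have h := hα 1 le_rfl
    let S : Finset (Fin (d ^ 1)) := {⟨0, by omega⟩, ⟨2, by omega⟩}
    have hS : S.card = 2 := by
      apply Finset.card_pair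
      intro h
      have := congrArg Fin.val h
      simp at this
    have h1 := gain_le h {2} S (by omega) (by
      intro x
      simp only [S, mem_insert, mem_singleton, Set.mem_singleton_iff, Fin.ext_iff])
    rw [r_one (by omega) S hS] at h1
    have h2 : (5 : ℝ) ≤ d := by exact_mod_cast hd5
    have h3 : 2 / (d : ℝ) ≤ 2 / 5 := by
      apply div_le_div_of_nonneg_left (by norm_num) (by norm_num) h2
    linarith
  · have hd34 : d = 3 ∨ d = 4 := by omega
    have h := hα 2 (by norm_num)
    rcases hd34 with rfl | rfl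
    · let S : Finset (Fin (3 ^ 2)) := {⟨0, by norm_num⟩, ⟨3, by norm_num⟩, ⟨4, by norm_num⟩}
      have hS : S.card ≤ k := le_trans Finset.card_le_three hk
      have hS' : ∀ x, x ∈ S ↔ (x.val = 0 ∨ x.val = 3 ∨ x.val = 4) := by
        intro x
        simp only [S, mem_insert, mem_singleton, Fin.ext_iff]
      have h1 := gain_le h {3, 4} S hS (by
        intro x
        rw [hS']
        simp only [Set.mem_insert_iff, Set.mem_singleton_iff])
      rw [r_two (by norm_num) S hS', wsum_three] at h1
      have h2 : (3 ^ 2).descFactorial 5 = 15120 := by decide +kernel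
      rw [h2] at h1
      norm_num at h1 ⊢
      linarith
    · let S : Finset (Fin (4 ^ 2)) := {⟨0, by norm_num⟩, ⟨3, by norm_num⟩, ⟨4, by norm_num⟩}
      have hS : S.card ≤ k := le_trans Finset.card_le_three hk
      have hS' : ∀ x, x ∈ S ↔ (x.val = 0 ∨ x.val = 3 ∨ x.val = 4) := by
        intro x
        simp only [S, mem_insert, mem_singleton, Fin.ext_iff]
      have h1 := gain_le h {3, 4} S hS (by
        intro x
        rw [hS']
        simp only [Set.mem_insert_iff, Set.mem_singleton_iff])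
      rw [r_two (by norm_num) S hS', wsum_four] at h1
      have h2 : (4 ^ 2).descFactorial 5 = 524160 := by decide +kernel
      rw [h2] at h1
      norm_num at h1 ⊢
      linarith

/-- **Main theorem.** For all `3 ≤ k ≤ d` there is a least `α` such that R`d`SEB is `k`-SNM-`α`
for every number `d ^ h` (`h ≥ 1`) of teams, namely `α_{d,k}`, and `α_{d,k} ≥ 227/420`. -/
theorem result : ∀ d k : ℕ, 3 ≤ k → k ≤ d →
    IsLeast {α : ℝ | ∀ h, 1 ≤ h → SNM d h k α} (alpha d k) ∧ (227 / 420 : ℝ) ≤ alpha d k := by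
  intro d k hk hkd
  have hd : NeZero d := ⟨by omega⟩
  have hne : {α : ℝ | ∀ h, 1 ≤ h → SNM d h k α}.Nonempty := ⟨1, fun h _ => SNM_one d h k⟩
  have hbdd : BddBelow {α : ℝ | ∀ h, 1 ≤ h → SNM d h k α} :=
    ⟨227 / 420, fun α hα => lower hk hkd hα⟩
  refine ⟨⟨?_, ?_⟩, ?_⟩
  · intro h hh T T' S hS hadj
    apply le_csInf hne
    intro α hα
    exact hα h hh T T' S hS hadj
  · intro α hα
    exact csInf_le hbdd hα
  · apply le_csInf hne
    intro α hα
    exact lower hk hkd hα

end Pool.Agent.Results.MP_5ab447_lc.BoundHolds
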